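import Pool.Agent.Run7.h570.GH.Iface

/-!
# Piece PTorus of the project of helper570: additional nonzero coordinates
-/

set_option autoImplicit false

open CategoryTheory AlgebraicGeometry MvPolynomial Pool.Agent.Y116.UV Pool.Agent.Z125.UN
  Pool.Agent.Q282.UZ

namespace Run7.h237.GH

open Run7.h570.GH

section laurent

variable {R : Type} [CommRing R] {σ κ : Type} (G : κ → MvPolynomial σ R) (w : MvPolynomial σ R)

/-- the equation of the torus -/
noncomputable abbrev tw : MvPolynomial (σ ⊕ Unit) R := rename Sum.inl w * X (Sum.inr ())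

/-- the piece in the piece times the torus -/
noncomputable def lauH : Pc G w →ₐ[R] Pc (rl G Unit) (tw w) :=
  pcLift G w (fun s => pv (rl G Unit) (tw w) (Sum.inl s))
    (fun k => by
      have h := pc_rel (rl G Unit) (tw w) k
      rw [← pc_aeval, rl, aeval_rename] at h
      exact h)
    (by
      have h := pc_unit_left (rl G Unit) (rename Sum.inl w) (X (Sum.inr ()))
      rw [← pc_aeval, aeval_rename] at h
      exact h)

lemma lauH_pv (s : σ) : lauH G w (pv G w s) = pv (rl G Unit) (tw w) (Sum.inl s) := by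
  rw [lauH, pcLift_pv]

/-- the coordinate of the torus -/
noncomputable def lauU : (Pc (rl G Unit) (tw w))ˣ :=
  (pc_unit_right (rl G Unit) (rename Sum.inl w) (X (Sum.inr ()))).unit

lemma lauU_val : (lauU G w : Pc (rl G Unit) (tw w)) = pv (rl G Unit) (tw w) (Sum.inr ()) := by
  rw [lauU, IsUnit.unit_spec, pv]

omit G w in
lemma alg_lau {A : Type} [CommRing A] [Algebra R A] (r : R) : algebraMap R (LaurentPolynomial A) r =
    LaurentPolynomial.C (algebraMap R A r) := by
  rw [IsScalarTower.algebraMap_apply R A (LaurentPolynomial A), LaurentPolynomial.algebraMap_apply]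
  simp

/-- from Laurent polynomials -/
noncomputable def lauF : LaurentPolynomial (Pc G w) →ₐ[R] Pc (rl G Unit) (tw w) :=
  { LaurentPolynomial.eval₂ (lauH G w : Pc G w →+* Pc (rl G Unit) (tw w)) (lauU G w) with
    commutes' := by
      intro r
      change LaurentPolynomial.eval₂ (lauH G w : Pc G w →+* Pc (rl G Unit) (tw w)) (lauU G w)
        (algebraMap R (LaurentPolynomial (Pc G w)) r) = _
      rw [alg_lau, LaurentPolynomial.eval₂_C]
      exact (lauH G w).commutes r }

lemma lauF_C (a : Pc G w) : lauF G w (LaurentPolynomial.C a) = lauH G w a :=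
  LaurentPolynomial.eval₂_C _ _ a

lemma lauF_T : lauF G w (LaurentPolynomial.T 1) = pv (rl G Unit) (tw w) (Sum.inr ()) := by
  have h := LaurentPolynomial.eval₂_T (lauH G w : Pc G w →+* Pc (rl G Unit) (tw w)) (lauU G w) 1
  rw [zpow_one, lauU_val] at h
  exact h

/-- the coordinates in the Laurent polynomials -/
noncomputable abbrev lauV : σ ⊕ Unit → LaurentPolynomial (Pc G w) :=
  Sum.elim (fun s => LaurentPolynomial.C (pv G w s)) (fun _ => LaurentPolynomial.T 1)

lemma aeval_lau (p : MvPolynomial σ R) :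
    aeval (lauV G w) (rename Sum.inl p) = LaurentPolynomial.C (pc G w p) := by
  rw [aeval_rename]
  have h : (lauV G w ∘ Sum.inl) =
      fun s => IsScalarTower.toAlgHom R (Pc G w) (LaurentPolynomial (Pc G w)) (pv G w s) := rfl
  rw [h, aeval_pv_comp]
  rfl

/-- to Laurent polynomials -/
noncomputable def lauG : Pc (rl G Unit) (tw w) →ₐ[R] LaurentPolynomial (Pc G w) :=
  pcLift (rl G Unit) (tw w) (lauV G w)
    (fun k => by rw [rl, aeval_lau, pc_rel, map_zero])
    (by
      rw [map_mul, aeval_lau, aeval_X]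
      exact ((pc_unit G w).map _).mul (LaurentPolynomial.isUnit_T 1))

lemma lauG_inl (s : σ) : lauG G w (pv (rl G Unit) (tw w) (Sum.inl s)) =
    LaurentPolynomial.C (pv G w s) := by
  rw [lauG, pcLift_pv]
  rfl

lemma lauG_inr : lauG G w (pv (rl G Unit) (tw w) (Sum.inr ())) = LaurentPolynomial.T 1 := by
  rw [lauG, pcLift_pv]
  rfl

/-- Laurent polynomials over a piece -/
noncomputable def lauE : LaurentPolynomial (Pc G w) ≃ₐ[R] Pc (rl G Unit) (tw w) :=
  AlgEquiv.ofAlgHom (lauF G w) (lauG G w)
    (by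
      apply pc_ext
      rintro (s | ⟨⟩)
      · rw [AlgHom.comp_apply, lauG_inl, lauF_C, lauH_pv]
        rfl
      · rw [AlgHom.comp_apply, lauG_inr, lauF_T]
        rfl)
    (by
      have h : ((lauG G w).comp (lauF G w) : LaurentPolynomial (Pc G w) →+*
          LaurentPolynomial (Pc G w)) = RingHom.id _ := by
        apply IsLocalization.ringHom_ext
          (Submonoid.powers (Polynomial.X : Polynomial (Pc G w)))
        have hC : ∀ a : Pc G w, algebraMap (Polynomial (Pc G w)) (LaurentPolynomial (Pc G w))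
            (Polynomial.C a) = LaurentPolynomial.C a := by
          intro a
          rw [LaurentPolynomial.algebraMap_eq_toLaurent, Polynomial.toLaurent_C]
        apply Polynomial.ringHom_ext'
        · apply pc_ringHom_ext
          · intro r
            change lauG G w (lauF G w (algebraMap (Polynomial (Pc G w))
              (LaurentPolynomial (Pc G w)) (Polynomial.C (algebraMap R (Pc G w) r)))) =
              algebraMap (Polynomial (Pc G w)) (LaurentPolynomial (Pc G w))
                (Polynomial.C (algebraMap R (Pc G w) r))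
            rw [hC, lauF_C, (lauH G w).commutes, (lauG G w).commutes, alg_lau]
          · intro s
            change lauG G w (lauF G w (algebraMap (Polynomial (Pc G w))
              (LaurentPolynomial (Pc G w)) (Polynomial.C (pv G w s)))) =
              algebraMap (Polynomial (Pc G w)) (LaurentPolynomial (Pc G w))
                (Polynomial.C (pv G w s))
            rw [hC, lauF_C, lauH_pv, lauG_inl]
        · change lauG G w (lauF G w (algebraMap (Polynomial (Pc G w))
              (LaurentPolynomial (Pc G w)) Polynomial.X)) =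
              algebraMap (Polynomial (Pc G w)) (LaurentPolynomial (Pc G w)) Polynomial.X
          rw [LaurentPolynomial.algebraMap_eq_toLaurent, Polynomial.toLaurent_X, lauF_T, lauG_inr]
      apply AlgHom.ext
      intro x
      exact congrArg (fun k : LaurentPolynomial (Pc G w) →+* LaurentPolynomial (Pc G w) => k x) h)

end laurent

section families

variable {R : Type} [CommRing R]

lemma rg_coord {σ : Type} (S : Fam R σ) (t : σ) : Rg S fun _ _ _ x => x t :=
  ⟨X t, 1, fun K _ _ x _ => ⟨by rw [map_one]; exact one_ne_zero, by rw [map_one, mul_one, aeval_X]⟩⟩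

lemma rg_const {σ : Type} (S : Fam R σ) (r : R) : Rg S fun K _ _ _ => algebraMap R K r :=
  ⟨C r, 1, fun K _ _ x _ => ⟨by rw [map_one]; exact one_ne_zero, by
    rw [map_one, mul_one, algHom_C]⟩⟩

/-- every presentation -/
lemma present (hIso : PIso) {sep : Prop} {P : Sch R → Prop} (hP : GClo sep P) {σ : Type} [Finite σ]
    {S : Fam R σ} (h : Q P S) {κ : Type} (G : κ → MvPolynomial σ R) (w : MvPolynomial σ R)
    (hG : Is S G w) : P (aff R (Pc G w)) :=
  hIso sep P hP S S (fun _ _ _ x => x) (fun _ _ _ x => x) (fun t => rg_coord S t)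
    (fun t => rg_coord S t) (fun _ _ _ _ hx => hx) (fun _ _ _ _ hx => hx) (fun _ _ _ _ _ => rfl)
    (fun _ _ _ _ _ => rfl) h G w hG

lemma is_rename {σ σ' κ : Type} (e : σ → σ') {S : Fam R σ} {G : κ → MvPolynomial σ R}
    {w : MvPolynomial σ R} (h : Is S G w) :
    Is (fun K _ _ (x : σ' → K) => S K (x ∘ e)) (fun k => rename e (G k)) (rename e w) := by
  intro K _ _ x
  simp only [aeval_rename]
  exact h K (x ∘ e)

/-- renaming the coordinates -/
lemma q_rename (hIso : PIso) {sep : Prop} {P : Sch R → Prop} (hP : GClo sep P) {σ σ' : Type}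
    [Finite σ] [Finite σ'] (e : σ ≃ σ') {S : Fam R σ} (h : Q P S) :
    Q P (fun K _ _ (x : σ' → K) => S K (x ∘ e)) := by
  obtain ⟨κ, G, w, hG, hw⟩ := h
  refine ⟨κ, _, _, is_rename e hG, ?_⟩
  refine hIso sep P hP S (fun K _ _ (x : σ' → K) => S K (x ∘ e)) (fun _ _ _ x => x ∘ e.symm)
    (fun _ _ _ x => x ∘ e) (fun t => rg_coord S (e.symm t)) (fun t => rg_coord _ (e t))
    ?_ (fun _ _ _ _ hx => hx) ?_ ?_ ⟨κ, G, w, hG, hw⟩ _ _ (is_rename e hG)
  · intro K _ _ x hx
    have : (x ∘ e.symm) ∘ e = x := by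
      funext s
      simp
    change S K ((x ∘ e.symm) ∘ e)
    rw [this]
    exact hx
  · intro K _ _ x _
    funext s
    simp
  · intro K _ _ x _
    funext s
    simp

lemma q_rename_iff (hIso : PIso) {sep : Prop} {P : Sch R → Prop} (hP : GClo sep P) {σ σ' : Type}
    [Finite σ] [Finite σ'] (e : σ ≃ σ') (S : Fam R σ) :
    Q P (fun K _ _ (x : σ' → K) => S K (x ∘ e)) ↔ Q P S := by
  constructor
  · intro h
    have h2 := q_rename hIso hP e.symm h
    have h3 : (fun (K : Type) [Field K] [Algebra R K] (x : σ → K) => S K ((x ∘ e.symm) ∘ e)) = S := by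
      funext K _ _ x
      congr 1
      funext s
      simp
    rw [h3] at h2
    exact h2
  · exact q_rename hIso hP e

/-- the product with a torus -/
abbrev Tor {σ : Type} (S : Fam R σ) (τ : Type) : Fam R (σ ⊕ τ) :=
  fun K _ _ (x : σ ⊕ τ → K) => (S K fun s => x (Sum.inl s)) ∧ ∀ t, x (Sum.inr t) ≠ 0

/-- one coordinate, to the right -/
lemma one_right (hIso : PIso) {sep : Prop} {P : Sch R → Prop} (hP : GClo sep P) {σ : Type}
    [Finite σ] (S : Fam R σ) (h : Q P (Tor S Unit)) : Q P S := by
  obtain ⟨κ, G, w, hG, hw⟩ := id h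
  let v : σ ⊕ Unit → MvPolynomial σ R := Sum.elim X fun _ => 1
  have hv : ∀ (p : MvPolynomial (σ ⊕ Unit) R) (K : Type) [Field K] [Algebra R K] (x : σ → K),
      aeval x (aeval v p) = aeval (Sum.elim x fun _ => 1) p := by
    intro p K _ _ x
    have h1 : (aeval x : MvPolynomial σ R →ₐ[R] K).comp (aeval v) =
        aeval (Sum.elim x fun _ => 1) := by
      apply MvPolynomial.algHom_ext
      rintro (s | s)
      · simp [v]
      · simp [v]
    exact DFunLike.congr_fun h1 p
  have hS : Is S (fun k => aeval v (G k)) (aeval v w) := by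
    intro K _ _ x
    have h1 := hG K (Sum.elim x fun _ => 1)
    simp only [hv]
    rw [← h1]
    constructor
    · intro hx
      exact ⟨hx, fun t => one_ne_zero⟩
    · intro hx
      exact hx.1
  have hT : Is (Tor S Unit) (rl (fun k => aeval v (G k)) Unit) (tw (aeval v w)) := by
    intro K _ _ x
    have h1 := hS K fun s => x (Sum.inl s)
    change (S K fun s => x (Sum.inl s)) ∧ (∀ t, x (Sum.inr t) ≠ 0) ↔ _
    rw [h1]
    simp only [rl, tw, map_mul, aeval_rename, aeval_X, mul_ne_zero_iff]
    constructor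
    · rintro ⟨⟨h2, h3⟩, h4⟩
      exact ⟨h2, h3, h4 ()⟩
    · rintro ⟨h2, h3, h4⟩
      exact ⟨⟨h2, h3⟩, fun _ => h4⟩
  have h2 := present hIso hP h _ _ hT
  have h3 : P (aff R (LaurentPolynomial (Pc (fun k => aeval v (G k)) (aeval v w)))) :=
    Pool.Agent.Q282.UK.clo_alg hP.toClo (lauE _ _).symm h2
  exact ⟨κ, _, _, hS, hP.torus _ h3⟩

/-- one coordinate, to the left -/
lemma one_left (hIso : PIso) (hSplit : PSplit) (hLine : PLine) {sep : Prop} {P : Sch R → Prop}
    (hP : GClo sep P) {σ : Type} [Finite σ] (S : Fam R σ) (h : Q P S) : Q P (Tor S Unit) := by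
  have h1 : Q P (fun K _ _ (x : σ ⊕ Unit → K) => S K fun s => x (Sum.inl s)) :=
    (hLine sep P hP S).mpr h
  have h2 : Q P (fun K _ _ (x : σ ⊕ Unit → K) => (S K fun s => x (Sum.inl s)) ∧
      aeval x (X (Sum.inr ()) : MvPolynomial (σ ⊕ Unit) R) = 0) := by
    obtain ⟨κ, G, w, hG, hw⟩ := id h
    have hT : Is (fun K _ _ (x : σ ⊕ Unit → K) => (S K fun s => x (Sum.inl s)) ∧
        aeval x (X (Sum.inr ()) : MvPolynomial (σ ⊕ Unit) R) = 0)
        (adj (rl G Unit) (X (Sum.inr ()))) (rename Sum.inl w) := by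
      intro K _ _ x
      have h3 := hG K fun s => x (Sum.inl s)
      change (S K fun s => x (Sum.inl s)) ∧ _ = _ ↔ _
      rw [h3, aeval_rename]
      constructor
      · rintro ⟨⟨h4, h5⟩, h6⟩
        refine ⟨?_, h5⟩
        rintro (_ | k)
        · exact h6
        · change aeval x (rename Sum.inl (G k)) = 0
          rw [aeval_rename]
          exact h4 k
      · rintro ⟨h4, h5⟩
        refine ⟨⟨fun k => ?_, h5⟩, h4 none⟩
        have h6 : aeval x (rename Sum.inl (G k)) = 0 := h4 (some k)
        rw [aeval_rename] at h6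
        exact h6
    refine ⟨_, _, _, hT, ?_⟩
    refine hIso sep P hP S _ (fun K _ _ x => Sum.elim x fun _ => 0)
      (fun _ _ _ x => fun s => x (Sum.inl s)) ?_ (fun t => rg_coord _ (Sum.inl t)) ?_
      (fun _ _ _ _ hx => hx.1) (fun _ _ _ _ _ => rfl) ?_ h _ _ hT
    · rintro (s | s)
      · exact rg_coord S s
      · have h4 := rg_const S (0 : R)
        simp only [map_zero] at h4
        exact h4
    · intro K _ _ x hx
      exact ⟨hx, by rw [aeval_X]; rfl⟩
    · intro K _ _ x hx
      funext s
      rcases s with s | s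
      · rfl
      · have h4 := hx.2
        rw [aeval_X] at h4
        exact h4.symm
  have h3 := (hSplit sep P hP _ (X (Sum.inr ()))).2.1 h1 h2
  have h4 : (fun (K : Type) [Field K] [Algebra R K] (x : σ ⊕ Unit → K) =>
      (S K fun s => x (Sum.inl s)) ∧ aeval x (X (Sum.inr ()) : MvPolynomial (σ ⊕ Unit) R) ≠ 0) =
      Tor S Unit := by
    funext K _ _ x
    rw [aeval_X]
    exact propext ⟨fun h => ⟨h.1, fun _ => h.2⟩, fun h => ⟨h.1, h.2 ()⟩⟩
  rw [h4] at h3
  exact h3

end families

/-- **Piece PTorus.** -/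
theorem t_PTorus (hIso : PIso) (hSplit : PSplit) (hLine : PLine) : PTorus := by
  intro R _ sep P hP σ τ _ hτ
  have main : ∀ (τ : Type), Finite τ → (∀ {σ : Type} [Finite σ] (S : Fam R σ),
      Q P (Tor S τ) ↔ Q P S) := by
    intro τ hτ
    refine Finite.induction_empty_option (P := fun τ : Type => Finite τ →
      (∀ {σ : Type} [Finite σ] (S : Fam R σ), Q P (Tor S τ) ↔ Q P S)) ?_ ?_ ?_ τ hτ
    · intro α β e ih hβ σ _ S
      have hα : Finite α := Finite.of_equiv β e.symm
      rw [← ih hα S, ← q_rename_iff hIso hP (Equiv.sumCongr (Equiv.refl σ) e) (Tor S α)]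
      have h1 : (fun (K : Type) [Field K] [Algebra R K] (x : σ ⊕ β → K) =>
          Tor S α K (x ∘ Equiv.sumCongr (Equiv.refl σ) e)) = Tor S β := by
        funext K _ _ x
        refine propext ⟨fun h => ⟨h.1, fun t => ?_⟩, fun h => ⟨h.1, fun t => h.2 (e t)⟩⟩
        have h2 := h.2 (e.symm t)
        simpa using h2
      rw [h1]
    · intro _ σ _ S
      have h1 := hLine sep P hP (τ := PEmpty) S
      rw [← h1]
      have h2 : (fun (K : Type) [Field K] [Algebra R K] (x : σ ⊕ PEmpty → K) =>
          S K fun s => x (Sum.inl s)) = Tor S PEmpty := by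
        funext K _ _ x
        exact propext ⟨fun h => ⟨h, fun t => t.elim⟩, fun h => h.1⟩
      rw [h2]
    · intro α _ ih _ σ _ S
      rw [← ih inferInstance S]
      let e : (σ ⊕ α) ⊕ Unit ≃ σ ⊕ Option α := (Equiv.sumAssoc σ α Unit).trans
        (Equiv.sumCongr (Equiv.refl σ) (Equiv.optionEquivSumPUnit α).symm)
      have h1 : (fun (K : Type) [Field K] [Algebra R K] (x : σ ⊕ Option α → K) =>
          Tor (Tor S α) Unit K (x ∘ e)) = Tor S (Option α) := by
        funext K _ _ x
        refine propext ⟨fun h => ⟨h.1.1, ?_⟩, fun h => ⟨⟨h.1, fun t => h.2 (some t)⟩,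
          fun t => h.2 none⟩⟩
        rintro (_ | t)
        · exact h.2 ()
        · exact h.1.2 t
      rw [← h1, q_rename_iff hIso hP e (Tor (Tor S α) Unit)]
      exact ⟨one_right hIso hP _, one_left hIso hSplit hLine hP _⟩
  exact main τ hτ

end Run7.h237.GH
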